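import Pool.Agent.Work.MP_2738db_nt_ZZ.Interface

/-!
Block O3 of the THIRD BASE theorem (MP_2738db): differences, large `k`, small `p`.
-/

set_option autoImplicit false

namespace Pool.Agent.Work.MP_2738db_nt_ZZ.helper12

open Finset

/-- mean value bound for powers -/
lemma pow_sub_le (p x y : ℕ) (h : y ≤ x) :
    (x : ℝ) ^ p - (y : ℝ) ^ p ≤ ((x : ℝ) - y) * (p * (x : ℝ) ^ (p - 1)) := by
  have h1 := geom_sum₂_mul (x : ℝ) (y : ℝ) p
  have hyx : (y : ℝ) ≤ x := by exact_mod_cast h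
  have h2 : (∑ i ∈ range p, (x : ℝ) ^ i * (y : ℝ) ^ (p - 1 - i)) ≤ p * (x : ℝ) ^ (p - 1) := by
    have h3 : ∀ i ∈ range p, (x : ℝ) ^ i * (y : ℝ) ^ (p - 1 - i) ≤ (x : ℝ) ^ (p - 1) := by
      intro i hi
      have hi' : i ≤ p - 1 := by
        have := mem_range.mp hi
        omega
      calc (x : ℝ) ^ i * (y : ℝ) ^ (p - 1 - i) ≤ (x : ℝ) ^ i * (x : ℝ) ^ (p - 1 - i) := by
            gcongr
        _ = (x : ℝ) ^ (p - 1) := by rw [← pow_add]; congr 1; omega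
    calc (∑ i ∈ range p, (x : ℝ) ^ i * (y : ℝ) ^ (p - 1 - i)) ≤ ∑ _i ∈ range p, (x : ℝ) ^ (p - 1) :=
          sum_le_sum h3
      _ = p * (x : ℝ) ^ (p - 1) := by simp
  rw [← h1, mul_comm]
  exact mul_le_mul_of_nonneg_left h2 (by linarith)

/-- one solution -/
lemma key (hStr : Stmt_Str) (C0 : ℝ)
    (hA3 : ∀ (n x y c k : ℕ), (n.Prime ∧ 3 ≤ n ∨ n = 4) → 1 ≤ y → y < x →
      Nat.Coprime x y → 1 ≤ k → 2 ≤ c → y ^ n + c ^ k = x ^ n →
      (x : ℝ) ^ n ≤ (c : ℝ) ^ k *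
        Real.exp (Real.exp ((n : ℝ) ^ C0) * Real.log c * (1 + Real.log k) ^ 2))
    (p c k : ℕ) (hp : p.Prime) (hp3 : 3 ≤ p) (hc : 2 ≤ c) (hk : 1 ≤ k) (hM : Mi p c k) :
    ∃ d z : ℕ, c = d * z ∧ 1 ≤ d ∧ 1 ≤ z ∧
      (p : ℝ) * (k * Real.log d) ≤ p * Real.log p + k * Real.log c ∧
      (k : ℝ) * Real.log c ≤ (p : ℝ) * (k * Real.log d) + p * Real.log p +
        p * (Real.exp ((p : ℝ) ^ C0) * Real.log c * (1 + Real.log k) ^ 2) := by
  obtain ⟨x, y, hy, hcop, h⟩ := hM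
  have hp0 : p ≠ 0 := by omega
  have hck : 0 < c ^ k := by positivity
  have hyx : y < x := by
    have h1 : y ^ p < x ^ p := by omega
    exact lt_of_pow_lt_pow_left₀ p (Nat.zero_le _) h1
  have hx : 1 ≤ x := by omega
  have hA := hA3 p x y c k (Or.inl ⟨hp, hp3⟩) hy hyx hcop hk hc h
  set E : ℝ := Real.exp ((p : ℝ) ^ C0) * Real.log c * (1 + Real.log k) ^ 2 with hE
  have hZ : (x : ℤ) ^ p - (y : ℤ) ^ p = (c : ℤ) ^ k := by
    have h1 : (y : ℤ) ^ p + (c : ℤ) ^ k = (x : ℤ) ^ p := by exact_mod_cast h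
    linarith
  obtain ⟨d, z, D, hcdz, hD, hD1, _, _, _, hcase⟩ := hStr p (x : ℤ) (y : ℤ) c k hp hp3
    (Nat.isCoprime_iff_coprime.mpr hcop) (by omega) hk hZ
  have hd1 : 1 ≤ d := by
    rcases Nat.eq_zero_or_pos d with h0 | h0
    · subst h0; omega
    · exact h0
  have hz1 : 1 ≤ z := by
    rcases Nat.eq_zero_or_pos z with h0 | h0
    · subst h0; omega
    · exact h0
  have hDd : D ≤ d ^ k ∧ d ^ k ≤ p * D := by
    rcases hcase with ⟨h1, _, _⟩ | ⟨_, h1, _⟩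
    · rw [← h1]
      exact ⟨le_rfl, Nat.le_mul_of_pos_left D (by omega)⟩
    · rw [← h1]
      exact ⟨Nat.le_mul_of_pos_left D (by omega), le_rfl⟩
  have hxyD : x = y + D := by
    have : (x : ℤ) = y + D := by linarith
    exact_mod_cast this
  -- reals
  have hcR : (1 : ℝ) < c := by exact_mod_cast (by omega : 1 < c)
  have hlc : 0 < Real.log c := Real.log_pos hcR
  have hDR : (1 : ℝ) ≤ D := by exact_mod_cast hD1
  have hxR : (1 : ℝ) ≤ x := by exact_mod_cast hx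
  have hpR : (3 : ℝ) ≤ p := by exact_mod_cast hp3
  have hdR : (1 : ℝ) ≤ d := by exact_mod_cast hd1
  have hR : (y : ℝ) ^ p + (c : ℝ) ^ k = (x : ℝ) ^ p := by exact_mod_cast h
  have hDp : (D : ℝ) ^ p ≤ (c : ℝ) ^ k := by
    have h1 : (y : ℝ) ^ p + (D : ℝ) ^ p ≤ ((y : ℝ) + D) ^ p :=
      pow_add_pow_le (by positivity) (by positivity) hp0
    have h2 : ((y : ℝ) + D) = x := by rw [hxyD]; push_cast; ring
    rw [h2] at h1
    linarith
  have hlD : (p : ℝ) * Real.log D ≤ k * Real.log c := by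
    have h1 := Real.log_le_log (by positivity) hDp
    rwa [Real.log_pow, Real.log_pow] at h1
  have hd_up : (k : ℝ) * Real.log d ≤ Real.log p + Real.log D := by
    have h1 : ((d : ℝ)) ^ k ≤ (p : ℝ) * D := by exact_mod_cast hDd.2
    have h2 := Real.log_le_log (by positivity) h1
    rwa [Real.log_pow, Real.log_mul (by positivity) (by positivity)] at h2
  have hd_lo : Real.log D ≤ (k : ℝ) * Real.log d := by
    have h1 : (D : ℝ) ≤ ((d : ℝ)) ^ k := by exact_mod_cast hDd.1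
    have h2 := Real.log_le_log (by positivity) h1
    rwa [Real.log_pow] at h2
  have hlx : (p : ℝ) * Real.log x ≤ k * Real.log c + E := by
    have h2 := Real.log_le_log (by positivity) hA
    rwa [Real.log_pow, Real.log_mul (by positivity) (Real.exp_ne_zero _), Real.log_pow,
      Real.log_exp] at h2
  have hup : (k : ℝ) * Real.log c ≤ Real.log D + (Real.log p + ((p : ℝ) - 1) * Real.log x) := by
    have h1 := pow_sub_le p x y hyx.le
    have h2 : (x : ℝ) - y = D := by rw [hxyD]; push_cast; ring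
    rw [h2] at h1
    have h3 : (c : ℝ) ^ k ≤ (D : ℝ) * (p * (x : ℝ) ^ (p - 1)) := by linarith
    have h4 := Real.log_le_log (by positivity) h3
    rw [Real.log_pow, Real.log_mul (by positivity) (by positivity),
      Real.log_mul (by positivity) (by positivity), Real.log_pow] at h4
    have h5 : ((p - 1 : ℕ) : ℝ) = (p : ℝ) - 1 := by
      rw [Nat.cast_sub (by omega)]; simp
    rw [h5] at h4
    exact h4
  have hE0 : 0 ≤ E := by rw [hE]; positivity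
  refine ⟨d, z, hcdz, hd1, hz1, ?_, ?_⟩
  · calc (p : ℝ) * (k * Real.log d) ≤ p * (Real.log p + Real.log D) :=
          mul_le_mul_of_nonneg_left hd_up (by linarith)
      _ ≤ p * Real.log p + k * Real.log c := by linarith
  · have h1 : (p : ℝ) * (k * Real.log c) ≤ p * Real.log D + p * Real.log p +
        (p - 1) * (k * Real.log c + E) := by
      have h2 := mul_le_mul_of_nonneg_left hup (by linarith : (0 : ℝ) ≤ p)
      have h3 := mul_le_mul_of_nonneg_left hlx (by linarith : (0 : ℝ) ≤ p - 1)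
      nlinarith
    have h2 : (p : ℝ) * Real.log D ≤ p * (k * Real.log d) :=
      mul_le_mul_of_nonneg_left hd_lo (by linarith)
    nlinarith

/-- the interval of the cofactor -/
lemma zint (p c k d z : ℕ) (ε E : ℝ) (hp3 : 3 ≤ p) (hk : 1 ≤ k) (hcdz : c = d * z)
    (hd : 1 ≤ d) (hz : 1 ≤ z) (hE : 0 ≤ E)
    (h1 : (p : ℝ) * (k * Real.log d) ≤ p * Real.log p + k * Real.log c)
    (h2 : (k : ℝ) * Real.log c ≤ (p : ℝ) * (k * Real.log d) + p * Real.log p + p * E)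
    (hε : (p : ℝ) * (Real.log p + E) ≤ ε * k) :
    (d : ℝ) ^ (p - 1) * Real.exp (-ε) ≤ z ∧ (z : ℝ) ≤ (d : ℝ) ^ (p - 1) * Real.exp ε ∧
      (d : ℝ) ^ p ≤ Real.exp ε * c := by
  have hdR : (1 : ℝ) ≤ d := by exact_mod_cast hd
  have hzR : (1 : ℝ) ≤ z := by exact_mod_cast hz
  have hkR : (1 : ℝ) ≤ k := by exact_mod_cast hk
  have hpR : (3 : ℝ) ≤ p := by exact_mod_cast hp3
  have hlc : Real.log c = Real.log d + Real.log z := by
    rw [hcdz]; push_cast; rw [Real.log_mul (by positivity) (by positivity)]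
  have hk0 : (0 : ℝ) < k := by linarith
  have hpE : 0 ≤ (p : ℝ) * E := by positivity
  have a1 : (p : ℝ) * Real.log d ≤ ε + Real.log c := by
    have : (k : ℝ) * (p * Real.log d) ≤ k * (ε + Real.log c) := by nlinarith
    exact le_of_mul_le_mul_left this hk0
  have a2 : Real.log c ≤ (p : ℝ) * Real.log d + ε := by
    have : (k : ℝ) * Real.log c ≤ k * ((p : ℝ) * Real.log d + ε) := by nlinarith
    exact le_of_mul_le_mul_left this hk0
  have h5 : ((p - 1 : ℕ) : ℝ) = (p : ℝ) - 1 := by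
    rw [Nat.cast_sub (by omega)]; simp
  have hdp : (d : ℝ) ^ (p - 1) = Real.exp (((p : ℝ) - 1) * Real.log d) := by
    rw [← h5, ← Real.log_pow, Real.exp_log (by positivity)]
  have hdp' : (d : ℝ) ^ p = Real.exp ((p : ℝ) * Real.log d) := by
    rw [← Real.log_pow, Real.exp_log (by positivity)]
  have hcR : (0 : ℝ) < c := by
    rw [hcdz]; push_cast; positivity
  refine ⟨?_, ?_, ?_⟩
  · rw [hdp, ← Real.exp_add, ← Real.exp_log (by linarith : (0 : ℝ) < z)]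
    apply Real.exp_le_exp.mpr
    linarith
  · rw [hdp, ← Real.exp_add, ← Real.exp_log (by linarith : (0 : ℝ) < z)]
    apply Real.exp_le_exp.mpr
    linarith
  · rw [hdp']
    calc Real.exp ((p : ℝ) * Real.log d) ≤ Real.exp (ε + Real.log c) :=
          Real.exp_le_exp.mpr a1
      _ = Real.exp ε * c := by rw [Real.exp_add, Real.exp_log hcR]

/-- number of integers in a real interval -/
lemma card_int (a b : ℝ) (ha : 0 ≤ a) (hab : a ≤ b) :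
    ((Icc ⌈a⌉₊ ⌊b⌋₊).card : ℝ) ≤ b - a + 1 := by
  rw [Nat.card_Icc]
  have h1 : (⌊b⌋₊ : ℝ) ≤ b := Nat.floor_le (by linarith)
  have h2 : a ≤ (⌈a⌉₊ : ℝ) := Nat.le_ceil a
  rcases le_total (⌈a⌉₊) (⌊b⌋₊ + 1) with h | h
  · rw [Nat.cast_sub h]
    push_cast
    linarith
  · rw [Nat.sub_eq_zero_of_le h]
    push_cast
    linarith

lemma exp_diff (ε : ℝ) : Real.exp ε - Real.exp (-ε) ≤ 2 * ε * Real.exp ε := by
  have h1 : Real.exp (-(2 * ε)) ≥ 1 - 2 * ε := by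
    have := Real.add_one_le_exp (-(2 * ε))
    linarith
  have h2 : Real.exp (-ε) = Real.exp ε * Real.exp (-(2 * ε)) := by
    rw [← Real.exp_add]; congr 1; ring
  rw [h2]
  nlinarith [Real.exp_pos ε]

/-- the error term -/
lemma eps_bound (C0 δ : ℝ) (hC0 : 1 ≤ C0) (hδ : 0 < δ) (hδ1 : δ < 1) :
    ∃ C1 : ℝ, 0 < C1 ∧ ∀ N p c k : ℕ, 2 ≤ N → 3 ≤ p → (p : ℝ) ≤ Real.log N ^ (1 / (2 * C0)) →
      2 ≤ c → c ≤ N → (N : ℝ) ^ δ ≤ k → 
      (p : ℝ) * (Real.log p + Real.exp ((p : ℝ) ^ C0) * Real.log c * (1 + Real.log k) ^ 2) ≤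
        C1 * (N : ℝ) ^ (-(δ / 3)) * k ∧ 1 ≤ Real.log N := by
  refine ⟨2 * 169 * (64 / δ ^ 2 * Real.exp (1 / δ)), by positivity, ?_⟩
  intro N p c k hN hp3 hp hc hcN hk
  have hNR : (2 : ℝ) ≤ N := by exact_mod_cast hN
  have hpR : (3 : ℝ) ≤ p := by exact_mod_cast hp3
  set L := Real.log N with hL
  have hL0 : 0 < L := Real.log_pos (by linarith)
  have hη0 : 0 < 1 / (2 * C0) := by positivity
  have hη1 : 1 / (2 * C0) ≤ 1 := by
    rw [div_le_one (by positivity)]; linarith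
  have hL1 : 1 ≤ L := by
    by_contra hcon
    push Not at hcon
    have : L ^ (1 / (2 * C0)) ≤ 1 := Real.rpow_le_one hL0.le hcon.le hη0.le
    linarith
  have hpL : (p : ℝ) ≤ L := by
    calc (p : ℝ) ≤ L ^ (1 / (2 * C0)) := hp
      _ ≤ L ^ (1 : ℝ) := Real.rpow_le_rpow_of_exponent_le hL1 hη1
      _ = L := Real.rpow_one L
  have hpC : (p : ℝ) ^ C0 ≤ Real.sqrt L := by
    calc (p : ℝ) ^ C0 ≤ (L ^ (1 / (2 * C0))) ^ C0 :=
          Real.rpow_le_rpow (by positivity) hp (by linarith)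
      _ = L ^ (1 / 2 : ℝ) := by
          rw [← Real.rpow_mul hL0.le]; congr 1; field_simp
      _ = Real.sqrt L := (Real.sqrt_eq_rpow L).symm
  have hsq : Real.sqrt L ≤ δ / 4 * L + 1 / δ := by
    have h1 : Real.sqrt L ^ 2 = L := Real.sq_sqrt hL0.le
    have h2 : 0 ≤ (δ / 2 * Real.sqrt L - 1) ^ 2 := sq_nonneg _
    have h3 : δ * Real.sqrt L ≤ δ * (δ / 4 * L + 1 / δ) := by
      have : δ * (δ / 4 * L + 1 / δ) = δ ^ 2 / 4 * L + 1 := by field_simp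
      rw [this]
      nlinarith
    exact le_of_mul_le_mul_left h3 hδ
  have hkpos : (0 : ℝ) < k := lt_of_lt_of_le (by positivity) hk
  have hk1 : (1 : ℝ) ≤ k := by
    have h0 : 0 < k := by exact_mod_cast hkpos
    exact_mod_cast h0
  have hlk : 0 ≤ Real.log k := Real.log_nonneg hk1
  have hlk2 : (1 + Real.log k) ^ 2 ≤ 169 * (k : ℝ) ^ (1 / 6 : ℝ) := by
    have h1 : Real.log k ≤ (k : ℝ) ^ (1 / 12 : ℝ) / (1 / 12) :=
      Real.log_le_rpow_div hkpos.le (by norm_num)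
    have h2 : (1 : ℝ) ≤ (k : ℝ) ^ (1 / 12 : ℝ) := Real.one_le_rpow hk1 (by norm_num)
    have h3 : 1 + Real.log k ≤ 13 * (k : ℝ) ^ (1 / 12 : ℝ) := by
      have : (k : ℝ) ^ (1 / 12 : ℝ) / (1 / 12) = 12 * (k : ℝ) ^ (1 / 12 : ℝ) := by ring
      linarith
    calc (1 + Real.log k) ^ 2 ≤ (13 * (k : ℝ) ^ (1 / 12 : ℝ)) ^ 2 :=
          pow_le_pow_left₀ (by linarith) h3 2
      _ = 169 * ((k : ℝ) ^ (1 / 12 : ℝ)) ^ (2 : ℕ) := by ring
      _ = 169 * (k : ℝ) ^ (1 / 6 : ℝ) := by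
          rw [← Real.rpow_natCast, ← Real.rpow_mul hkpos.le]; norm_num
  have hlc : Real.log c ≤ L :=
    Real.log_le_log (by exact_mod_cast (by omega : 0 < c)) (by exact_mod_cast hcN)
  have hlc0 : 0 ≤ Real.log c := Real.log_natCast_nonneg c
  have hlp : Real.log p ≤ L := by
    have h1 : Real.log p ≤ (p : ℝ) := by
      have := Real.log_le_sub_one_of_pos (by linarith : (0 : ℝ) < p)
      linarith
    linarith
  have hlp0 : 0 ≤ Real.log p := Real.log_natCast_nonneg p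
  have hexp1 : 1 ≤ Real.exp (Real.sqrt L) := Real.one_le_exp (Real.sqrt_nonneg L)
  have hA : (1 : ℝ) ≤ (1 + Real.log k) ^ 2 := by nlinarith
  have hmain : (p : ℝ) * (Real.log p + Real.exp ((p : ℝ) ^ C0) * Real.log c *
      (1 + Real.log k) ^ 2) ≤ 2 * (L ^ 2 * Real.exp (Real.sqrt L)) * (1 + Real.log k) ^ 2 := by
    have h1 : Real.exp ((p : ℝ) ^ C0) * Real.log c * (1 + Real.log k) ^ 2 ≤
        Real.exp (Real.sqrt L) * L * (1 + Real.log k) ^ 2 := by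
      have := Real.exp_le_exp.mpr hpC
      gcongr
    have h2 : Real.log p ≤ Real.exp (Real.sqrt L) * L * (1 + Real.log k) ^ 2 := by
      calc Real.log p ≤ L := hlp
        _ = 1 * L * 1 := by ring
        _ ≤ Real.exp (Real.sqrt L) * L * (1 + Real.log k) ^ 2 := by gcongr
    calc (p : ℝ) * (Real.log p + Real.exp ((p : ℝ) ^ C0) * Real.log c * (1 + Real.log k) ^ 2) ≤
          L * (Real.exp (Real.sqrt L) * L * (1 + Real.log k) ^ 2 +
            Real.exp (Real.sqrt L) * L * (1 + Real.log k) ^ 2) := by gcongr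
      _ = 2 * (L ^ 2 * Real.exp (Real.sqrt L)) * (1 + Real.log k) ^ 2 := by ring
  have hLexp : L ^ 2 * Real.exp (Real.sqrt L) ≤
      64 / δ ^ 2 * Real.exp (1 / δ) * (N : ℝ) ^ (δ / 2) := by
    have h1 : L ≤ 8 / δ * Real.exp (δ * L / 8) := by
      have h2 : δ * L / 8 ≤ Real.exp (δ * L / 8) := by
        have := Real.add_one_le_exp (δ * L / 8)
        linarith
      calc L = 8 / δ * (δ * L / 8) := by field_simp
        _ ≤ 8 / δ * Real.exp (δ * L / 8) := by gcongr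
    have h3 : L ^ 2 ≤ 64 / δ ^ 2 * Real.exp (δ * L / 4) := by
      calc L ^ 2 ≤ (8 / δ * Real.exp (δ * L / 8)) ^ 2 := pow_le_pow_left₀ hL0.le h1 2
        _ = 64 / δ ^ 2 * (Real.exp (δ * L / 8) * Real.exp (δ * L / 8)) := by ring
        _ = 64 / δ ^ 2 * Real.exp (δ * L / 4) := by
            rw [← Real.exp_add]; congr 2; ring
    have h4 : Real.exp (Real.sqrt L) ≤ Real.exp (δ * L / 4) * Real.exp (1 / δ) := by
      rw [← Real.exp_add]
      apply Real.exp_le_exp.mpr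
      linarith
    have h5 : (N : ℝ) ^ (δ / 2) = Real.exp (δ * L / 4) * Real.exp (δ * L / 4) := by
      rw [← Real.exp_add, Real.rpow_def_of_pos (by linarith)]
      congr 1
      rw [← hL]; ring
    rw [h5]
    calc L ^ 2 * Real.exp (Real.sqrt L) ≤
          (64 / δ ^ 2 * Real.exp (δ * L / 4)) * (Real.exp (δ * L / 4) * Real.exp (1 / δ)) := by
          gcongr
      _ = 64 / δ ^ 2 * Real.exp (1 / δ) * (Real.exp (δ * L / 4) * Real.exp (δ * L / 4)) := by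
          ring
  have hkk : (N : ℝ) ^ (δ / 2) * (k : ℝ) ^ (1 / 6 : ℝ) ≤ (N : ℝ) ^ (-(δ / 3)) * k := by
    have h1 : (k : ℝ) = (k : ℝ) ^ (1 / 6 : ℝ) * (k : ℝ) ^ (5 / 6 : ℝ) := by
      rw [← Real.rpow_add hkpos]; norm_num
    have h2 : (N : ℝ) ^ (δ * (5 / 6)) ≤ (k : ℝ) ^ (5 / 6 : ℝ) := by
      rw [Real.rpow_mul (by linarith)]
      exact Real.rpow_le_rpow (by positivity) hk (by norm_num)
    have h3 : (N : ℝ) ^ (δ / 2) = (N : ℝ) ^ (-(δ / 3)) * (N : ℝ) ^ (δ * (5 / 6)) := by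
      rw [← Real.rpow_add (by linarith)]; congr 1; ring
    calc (N : ℝ) ^ (δ / 2) * (k : ℝ) ^ (1 / 6 : ℝ) =
          (N : ℝ) ^ (-(δ / 3)) * ((k : ℝ) ^ (1 / 6 : ℝ) * (N : ℝ) ^ (δ * (5 / 6))) := by
          rw [h3]; ring
      _ ≤ (N : ℝ) ^ (-(δ / 3)) * ((k : ℝ) ^ (1 / 6 : ℝ) * (k : ℝ) ^ (5 / 6 : ℝ)) := by
          gcongr
      _ = (N : ℝ) ^ (-(δ / 3)) * k := by rw [← h1]
  refine ⟨?_, hL1⟩
  calc (p : ℝ) * (Real.log p + Real.exp ((p : ℝ) ^ C0) * Real.log c * (1 + Real.log k) ^ 2) ≤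
        2 * (L ^ 2 * Real.exp (Real.sqrt L)) * (1 + Real.log k) ^ 2 := hmain
    _ ≤ 2 * (64 / δ ^ 2 * Real.exp (1 / δ) * (N : ℝ) ^ (δ / 2)) *
        (169 * (k : ℝ) ^ (1 / 6 : ℝ)) := by gcongr
    _ = 2 * 169 * (64 / δ ^ 2 * Real.exp (1 / δ)) *
        ((N : ℝ) ^ (δ / 2) * (k : ℝ) ^ (1 / 6 : ℝ)) := by ring
    _ ≤ 2 * 169 * (64 / δ ^ 2 * Real.exp (1 / δ)) * ((N : ℝ) ^ (-(δ / 3)) * k) := by gcongr
    _ = 2 * 169 * (64 / δ ^ 2 * Real.exp (1 / δ)) * (N : ℝ) ^ (-(δ / 3)) * k := by ring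

/-- the sum over `p` and `d` -/
lemma count_bound (P : ℕ) (ε R : ℝ) (hε : 0 ≤ ε) (hR : 1 ≤ R)
    (T : ℕ → ℕ → Finset ℕ)
    (hT : ∀ p d, ((T p d).card : ℝ) ≤ (d : ℝ) ^ (p - 1) * (2 * ε * Real.exp ε) + 1) :
    ((((Icc 3 P).biUnion fun p => (Icc 1 ⌊R ^ (1 / (p : ℝ))⌋₊).biUnion fun d => T p d).card : ℕ) :
      ℝ) ≤ P * (R ^ (1 / 3 : ℝ) + 2 * ε * Real.exp ε * R) := by
  have hp : ∀ p ∈ Icc 3 P, ((((Icc 1 ⌊R ^ (1 / (p : ℝ))⌋₊).biUnion fun d => T p d).card : ℕ) : ℝ) ≤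
      R ^ (1 / 3 : ℝ) + 2 * ε * Real.exp ε * R := by
    intro p hp
    have hp3 : 3 ≤ p := (mem_Icc.mp hp).1
    have hpR : (3 : ℝ) ≤ p := by exact_mod_cast hp3
    set M := ⌊R ^ (1 / (p : ℝ))⌋₊ with hM
    have hR0 : 0 < R := by linarith
    have hMR : (M : ℝ) ≤ R ^ (1 / (p : ℝ)) := Nat.floor_le (by positivity)
    have hM3 : (M : ℝ) ≤ R ^ (1 / 3 : ℝ) := hMR.trans
      (Real.rpow_le_rpow_of_exponent_le hR (one_div_le_one_div_of_le (by norm_num) hpR))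
    have hMp : (M : ℝ) ^ p ≤ R := by
      calc (M : ℝ) ^ p ≤ (R ^ (1 / (p : ℝ))) ^ p := pow_le_pow_left₀ (by positivity) hMR p
        _ = R := by
            rw [← Real.rpow_natCast, ← Real.rpow_mul hR0.le]
            rw [one_div_mul_cancel (by linarith), Real.rpow_one]
    have h1 : ((((Icc 1 M).biUnion fun d => T p d).card : ℕ) : ℝ) ≤
        ∑ d ∈ Icc 1 M, ((T p d).card : ℝ) := by
      exact_mod_cast card_biUnion_le
    have h2 : ∑ d ∈ Icc 1 M, ((T p d).card : ℝ) ≤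
        ∑ _d ∈ Icc 1 M, ((M : ℝ) ^ (p - 1) * (2 * ε * Real.exp ε) + 1) := by
      apply sum_le_sum
      intro d hd
      have hdM : (d : ℝ) ≤ M := by exact_mod_cast (mem_Icc.mp hd).2
      refine (hT p d).trans ?_
      gcongr
    have h3 : ∑ _d ∈ Icc 1 M, ((M : ℝ) ^ (p - 1) * (2 * ε * Real.exp ε) + 1) =
        (M : ℝ) ^ p * (2 * ε * Real.exp ε) + M := by
      rw [sum_const, Nat.card_Icc, nsmul_eq_mul]
      have : (M : ℝ) ^ p = M * (M : ℝ) ^ (p - 1) := by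
        rw [← pow_succ']; congr 1; omega
      rw [this]
      push_cast [Nat.add_sub_cancel]
      ring
    rw [h3] at h2
    have h4 : (M : ℝ) ^ p * (2 * ε * Real.exp ε) ≤ R * (2 * ε * Real.exp ε) := by gcongr
    linarith
  calc ((((Icc 3 P).biUnion fun p => (Icc 1 ⌊R ^ (1 / (p : ℝ))⌋₊).biUnion fun d => T p d).card :
        ℕ) : ℝ) ≤ ∑ p ∈ Icc 3 P,
          ((((Icc 1 ⌊R ^ (1 / (p : ℝ))⌋₊).biUnion fun d => T p d).card : ℕ) : ℝ) := by
        exact_mod_cast card_biUnion_le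
    _ ≤ ∑ _p ∈ Icc 3 P, (R ^ (1 / 3 : ℝ) + 2 * ε * Real.exp ε * R) := sum_le_sum hp
    _ = ((Icc 3 P).card : ℝ) * (R ^ (1 / 3 : ℝ) + 2 * ε * Real.exp ε * R) := by
        rw [sum_const, nsmul_eq_mul]
    _ ≤ P * (R ^ (1 / 3 : ℝ) + 2 * ε * Real.exp ε * R) := by
        have h1 : ((Icc 3 P).card : ℝ) ≤ P := by
          rw [Nat.card_Icc]
          exact_mod_cast (by omega : P + 1 - 3 ≤ P)
        have hR0 : 0 < R := by linarith
        gcongr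

theorem o3 (hStr : Stmt_Str) (hA : MP_2738db_nt_Y.Stmt_A3) : Stmt_O3 := by
  obtain ⟨C0, hC0, hA3⟩ := hA
  refine ⟨1 / (2 * C0), by positivity, ?_, ?_⟩
  · rw [div_lt_one (by positivity)]; linarith
  intro δ hδ hδ1
  obtain ⟨C1, hC1, heps⟩ := eps_bound C0 δ hC0 hδ hδ1
  set F : ℝ := Real.exp C1 with hF
  have hF1 : 1 ≤ F := Real.one_le_exp hC1.le
  refine ⟨1 + 12 / δ * (F + 2 * C1 * F * F), ?_⟩
  intro N hN
  have hNR : (2 : ℝ) ≤ N := by exact_mod_cast hN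
  have hN0 : (0 : ℝ) < N := by linarith
  set L := Real.log N with hL
  have hL0 : 0 < L := Real.log_pos (by linarith)
  set ε : ℝ := C1 * (N : ℝ) ^ (-(δ / 3)) with hεdef
  have hε0 : 0 ≤ ε := by positivity
  have hNδ : (N : ℝ) ^ (-(δ / 3)) ≤ 1 :=
    Real.rpow_le_one_of_one_le_of_nonpos (by linarith) (by linarith)
  have hε1 : ε ≤ C1 := by
    calc ε ≤ C1 * 1 := by rw [hεdef]; gcongr
      _ = C1 := mul_one _
  have hexpε : Real.exp ε ≤ F := Real.exp_le_exp.mpr hε1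
  set T : ℕ → ℕ → Finset ℕ := fun p d =>
    (Icc ⌈(d : ℝ) ^ (p - 1) * Real.exp (-ε)⌉₊ ⌊(d : ℝ) ^ (p - 1) * Real.exp ε⌋₊).image
      (fun z => d * z) with hTdef
  have hT : ∀ p d, ((T p d).card : ℝ) ≤ (d : ℝ) ^ (p - 1) * (2 * ε * Real.exp ε) + 1 := by
    intro p d
    have h1 : ((T p d).card : ℝ) ≤ ((Icc ⌈(d : ℝ) ^ (p - 1) * Real.exp (-ε)⌉₊
        ⌊(d : ℝ) ^ (p - 1) * Real.exp ε⌋₊).card : ℝ) := by
      have h0 : (T p d).card ≤ (Icc ⌈(d : ℝ) ^ (p - 1) * Real.exp (-ε)⌉₊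
        ⌊(d : ℝ) ^ (p - 1) * Real.exp ε⌋₊).card := card_image_le
      exact Nat.cast_le.mpr h0
    have h2 := card_int ((d : ℝ) ^ (p - 1) * Real.exp (-ε)) ((d : ℝ) ^ (p - 1) * Real.exp ε)
      (by positivity) (by
        have : Real.exp (-ε) ≤ Real.exp ε := Real.exp_le_exp.mpr (by linarith)
        gcongr)
    have h3 := exp_diff ε
    have h4 : (d : ℝ) ^ (p - 1) * (Real.exp ε - Real.exp (-ε)) ≤
        (d : ℝ) ^ (p - 1) * (2 * ε * Real.exp ε) := by gcongr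
    linarith
  set R : ℝ := F * N with hRdef
  have hR1 : 1 ≤ R := by nlinarith
  set U : Finset ℕ := insert 1 ((Icc 3 ⌊L⌋₊).biUnion fun p =>
    (Icc 1 ⌊R ^ (1 / (p : ℝ))⌋₊).biUnion fun d => T p d) with hU
  have hsub : {c : ℕ | 1 ≤ c ∧ c ≤ N ∧ ∃ p k : ℕ, p.Prime ∧ 3 ≤ p ∧
      (p : ℝ) ≤ Real.log N ^ (1 / (2 * C0)) ∧ (N : ℝ) ^ δ ≤ k ∧ Mi p c k} ⊆ (U : Set ℕ) := by
    rintro c ⟨hc1, hcN, p, k, hp, hp3, hpη, hk, hM⟩
    rcases Nat.lt_or_ge c 2 with hc | hc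
    · have : c = 1 := by omega
      subst this
      simp [hU]
    obtain ⟨he, hL1⟩ := heps N p c k hN hp3 hpη hc hcN hk
    have hkpos : (0 : ℝ) < k := lt_of_lt_of_le (by positivity) hk
    have hk1 : 1 ≤ k := by
      have h0 : 0 < k := by exact_mod_cast hkpos
      exact h0
    obtain ⟨d, z, hcdz, hd, hz, h1, h2⟩ := key hStr C0 hA3 p c k hp hp3 hc hk1 hM
    have hE0 : 0 ≤ Real.exp ((p : ℝ) ^ C0) * Real.log c * (1 + Real.log k) ^ 2 := by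
      have := Real.log_natCast_nonneg c
      positivity
    obtain ⟨b1, b2, b3⟩ := zint p c k d z ε _ hp3 hk1 hcdz hd hz hE0 h1 h2 he
    have hpR : (3 : ℝ) ≤ p := by exact_mod_cast hp3
    have hη1 : 1 / (2 * C0) ≤ 1 := by
      rw [div_le_one (by positivity)]; linarith
    have hpL : (p : ℝ) ≤ L := by
      calc (p : ℝ) ≤ L ^ (1 / (2 * C0)) := hpη
        _ ≤ L ^ (1 : ℝ) := Real.rpow_le_rpow_of_exponent_le hL1 hη1
        _ = L := Real.rpow_one L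
    have hpf : p ≤ ⌊L⌋₊ := Nat.le_floor hpL
    have hdf : d ≤ ⌊R ^ (1 / (p : ℝ))⌋₊ := by
      apply Nat.le_floor
      have h5 : (d : ℝ) ^ p ≤ R := by
        calc (d : ℝ) ^ p ≤ Real.exp ε * c := b3
          _ ≤ F * N := by
              have : (c : ℝ) ≤ N := by exact_mod_cast hcN
              gcongr
      calc (d : ℝ) = ((d : ℝ) ^ p) ^ (1 / (p : ℝ)) := by
            rw [← Real.rpow_natCast, ← Real.rpow_mul (by positivity),
              mul_one_div_cancel (by linarith), Real.rpow_one]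
        _ ≤ R ^ (1 / (p : ℝ)) := Real.rpow_le_rpow (by positivity) h5 (by positivity)
    rw [hU]
    simp only [coe_insert, Set.mem_insert_iff, mem_coe, mem_biUnion, mem_Icc]
    right
    refine ⟨p, ⟨hp3, hpf⟩, d, ⟨hd, hdf⟩, ?_⟩
    rw [hTdef]
    simp only [mem_image, mem_Icc]
    exact ⟨z, ⟨Nat.ceil_le.mpr b1, Nat.le_floor b2⟩, hcdz.symm⟩
  have hcard : (({c : ℕ | 1 ≤ c ∧ c ≤ N ∧ ∃ p k : ℕ, p.Prime ∧ 3 ≤ p ∧
      (p : ℝ) ≤ Real.log N ^ (1 / (2 * C0)) ∧ (N : ℝ) ^ δ ≤ k ∧ Mi p c k}.ncard : ℕ) : ℝ) ≤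
      (U.card : ℝ) := by
    have h1 := Set.ncard_le_ncard hsub (finite_toSet U)
    rw [Set.ncard_coe_finset] at h1
    exact_mod_cast h1
  have hUc : (U.card : ℝ) ≤ 1 + (⌊L⌋₊ : ℝ) * (R ^ (1 / 3 : ℝ) + 2 * ε * Real.exp ε * R) := by
    have h1 : (U.card : ℝ) ≤ ((((Icc 3 ⌊L⌋₊).biUnion fun p =>
        (Icc 1 ⌊R ^ (1 / (p : ℝ))⌋₊).biUnion fun d => T p d).card : ℕ) : ℝ) + 1 := by
      exact_mod_cast card_insert_le _ _
    have h2 := count_bound ⌊L⌋₊ ε R hε0 hR1 T hT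
    linarith
  -- final estimate
  have hfl : (⌊L⌋₊ : ℝ) ≤ L := Nat.floor_le hL0.le
  have hR3 : R ^ (1 / 3 : ℝ) ≤ F * (N : ℝ) ^ (1 - δ / 3) := by
    rw [hRdef, Real.mul_rpow (by linarith) (by linarith)]
    have h1 : F ^ (1 / 3 : ℝ) ≤ F := by
      calc F ^ (1 / 3 : ℝ) ≤ F ^ (1 : ℝ) :=
            Real.rpow_le_rpow_of_exponent_le hF1 (by norm_num)
        _ = F := Real.rpow_one F
    have h2 : (N : ℝ) ^ (1 / 3 : ℝ) ≤ (N : ℝ) ^ (1 - δ / 3) :=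
      Real.rpow_le_rpow_of_exponent_le (by linarith) (by linarith)
    gcongr
  have hεR : 2 * ε * Real.exp ε * R ≤ 2 * C1 * F * F * (N : ℝ) ^ (1 - δ / 3) := by
    have h1 : (N : ℝ) ^ (1 - δ / 3) = (N : ℝ) ^ (-(δ / 3)) * N := by
      have : (1 - δ / 3 : ℝ) = -(δ / 3) + 1 := by ring
      rw [this, Real.rpow_add hN0, Real.rpow_one]
    rw [h1, hRdef]
    calc 2 * ε * Real.exp ε * (F * N) ≤ 2 * ε * F * (F * N) := by gcongr
      _ = 2 * C1 * F * F * ((N : ℝ) ^ (-(δ / 3)) * N) := by rw [hεdef]; ring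
  have hLN : L ≤ 12 / δ * (N : ℝ) ^ (δ / 12) := by
    have h1 := Real.log_le_rpow_div hN0.le (by positivity : 0 < δ / 12)
    calc L ≤ (N : ℝ) ^ (δ / 12) / (δ / 12) := h1
      _ = 12 / δ * (N : ℝ) ^ (δ / 12) := by field_simp
  have hpow : (N : ℝ) ^ (δ / 12) * (N : ℝ) ^ (1 - δ / 3) = (N : ℝ) ^ (1 - δ / 4) := by
    rw [← Real.rpow_add hN0]; congr 1; ring
  have hone : 1 ≤ (N : ℝ) ^ (1 - δ / 4) := Real.one_le_rpow (by linarith) (by linarith)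
  have hbr : R ^ (1 / 3 : ℝ) + 2 * ε * Real.exp ε * R ≤
      (F + 2 * C1 * F * F) * (N : ℝ) ^ (1 - δ / 3) := by linarith
  have hR0 : 0 < R := by linarith
  calc (({c : ℕ | 1 ≤ c ∧ c ≤ N ∧ ∃ p k : ℕ, p.Prime ∧ 3 ≤ p ∧
      (p : ℝ) ≤ Real.log N ^ (1 / (2 * C0)) ∧ (N : ℝ) ^ δ ≤ k ∧ Mi p c k}.ncard : ℕ) : ℝ) ≤
        1 + (⌊L⌋₊ : ℝ) * (R ^ (1 / 3 : ℝ) + 2 * ε * Real.exp ε * R) := hcard.trans hUc
    _ ≤ 1 + L * ((F + 2 * C1 * F * F) * (N : ℝ) ^ (1 - δ / 3)) := by gcongr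
    _ ≤ 1 + (12 / δ * (N : ℝ) ^ (δ / 12)) * ((F + 2 * C1 * F * F) * (N : ℝ) ^ (1 - δ / 3)) := by
        gcongr
    _ = 1 + 12 / δ * (F + 2 * C1 * F * F) *
        ((N : ℝ) ^ (δ / 12) * (N : ℝ) ^ (1 - δ / 3)) := by ring
    _ = 1 + 12 / δ * (F + 2 * C1 * F * F) * (N : ℝ) ^ (1 - δ / 4) := by rw [hpow]
    _ ≤ (1 + 12 / δ * (F + 2 * C1 * F * F)) * (N : ℝ) ^ (1 - δ / 4) := by
        rw [add_mul]
        linarith

end Pool.Agent.Work.MP_2738db_nt_ZZ.helper12
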